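import Mathlib
import Pool.Agent.W667.DT.Stms

set_option autoImplicit false
set_option maxSynthPendingDepth 3
set_option linter.unusedSectionVars false
set_option linter.unusedVariables false

/-!
Project DT: horseshoe lemma, quotients, monotonicity, resolutions.
-/

namespace Pool.Agent.W305.DT

open Pool.Agent.Helper832.GD Pool.Agent.Helper832.GD.Bim ContinuousLinearMap
open Pool.Agent.W667.DT

noncomputable section

variable {A : Type} [NonUnitalNormedRing A] [NormedSpace ℂ A] [IsScalarTower ℂ A A]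
  [SMulCommClass ℂ A A]

/-- products of bimodules -/
def prodBim (P Q : Bim A A) : Bim A A where
  carrier := P.carrier × Q.carrier
  left := (prodMapL ℂ P.carrier P.carrier Q.carrier Q.carrier).comp (P.left.prod Q.left)
  right := (prodMapL ℂ P.carrier P.carrier Q.carrier Q.carrier).comp (P.right.prod Q.right)
  left_mul := fun a b t => Prod.ext (P.left_mul a b t.1) (Q.left_mul a b t.2)
  right_mul := fun a b t => Prod.ext (P.right_mul a b t.1) (Q.right_mul a b t.2)
  left_right := fun a b t => Prod.ext (P.left_right a b t.1) (Q.left_right a b t.2)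

lemma prod_left (P Q : Bim A A) (a : A) (t : P.carrier × Q.carrier) :
    (prodBim P Q).left a t = (P.left a t.1, Q.left a t.2) := rfl

lemma prod_right (P Q : Bim A A) (a : A) (t : P.carrier × Q.carrier) :
    (prodBim P Q).right a t = (P.right a t.1, Q.right a t.2) := rfl

lemma prod_projective {P Q : Bim A A} (hP : P.Projective) (hQ : Q.Projective) :
    (prodBim P Q).Projective := by
  intro Y Z σ φ hσ hσ' hφ
  obtain ⟨ψ1, h1, h1'⟩ := hP Y Z σ (φ.comp (inl ℂ P.carrier Q.carrier)) hσ hσ'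
    ⟨fun a x => by
      have := hφ.1 a ((x, 0) : P.carrier × Q.carrier)
      rw [prod_left] at this
      simp only [map_zero] at this
      exact this, fun a x => by
      have := hφ.2 a ((x, 0) : P.carrier × Q.carrier)
      rw [prod_right] at this
      simp only [map_zero] at this
      exact this⟩
  obtain ⟨ψ2, h2, h2'⟩ := hQ Y Z σ (φ.comp (inr ℂ P.carrier Q.carrier)) hσ hσ'
    ⟨fun a x => by
      have := hφ.1 a ((0, x) : P.carrier × Q.carrier)
      rw [prod_left] at this
      simp only [map_zero] at this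
      exact this, fun a x => by
      have := hφ.2 a ((0, x) : P.carrier × Q.carrier)
      rw [prod_right] at this
      simp only [map_zero] at this
      exact this⟩
  refine ⟨ψ1.comp (fst ℂ P.carrier Q.carrier) + ψ2.comp (snd ℂ P.carrier Q.carrier),
    ⟨?_, ?_⟩, ?_⟩
  · intro a t
    show ψ1 (P.left a t.1) + ψ2 (Q.left a t.2) = Y.left a (ψ1 t.1 + ψ2 t.2)
    rw [map_add, h1.1, h2.1]
  · intro a t
    show ψ1 (P.right a t.1) + ψ2 (Q.right a t.2) = Y.right a (ψ1 t.1 + ψ2 t.2)
    rw [map_add, h1.2, h2.2]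
  · intro t
    have key : ∀ (φ' : (P.carrier × Q.carrier) →L[ℂ] Z.carrier) (u : P.carrier × Q.carrier),
        φ' (u.1, 0) + φ' (0, u.2) = φ' u := by
      intro φ' u
      rw [← map_add]
      congr 1
      exact Prod.ext (add_zero _) (zero_add _)
    show σ (ψ1 (t : P.carrier × Q.carrier).1 + ψ2 (t : P.carrier × Q.carrier).2) = φ t
    rw [map_add, h1', h2']
    exact key φ t

/-- an admissible epimorphism gives an extension -/
lemma se_ker {P X : Bim A A} (σ : Op P X) (hσ : IsHom σ) (S : Op X P) (hS : ∀ x, σ (S x) = x) :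
    SE (ker σ hσ) P X := by
  have hmem : ∀ p, σ ((ContinuousLinearMap.id ℂ P.carrier - S.comp σ) p) = 0 := by
    intro p
    show σ (p - S (σ p)) = 0
    rw [map_sub, hS, sub_self]
  refine ⟨kerVal σ hσ, σ, kerCod σ hσ (ContinuousLinearMap.id ℂ P.carrier - S.comp σ) hmem, S,
    ⟨kerVal_left σ hσ, kerVal_right σ hσ⟩, hσ, ?_, hS, ?_, ?_⟩
  · intro x
    apply kerVal_inj σ hσ
    show kerVal σ hσ x - S (σ (kerVal σ hσ x)) = kerVal σ hσ x
    rw [map_kerVal, map_zero, sub_zero]
  · intro p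
    show p - S (σ p) + S (σ p) = p
    abel
  · intro x
    exact map_kerVal σ hσ x

/-- the base case -/
lemma projective_ext {X' X X'' : Bim A A} (h : SE X' X X'') (h' : X'.Projective)
    (h'' : X''.Projective) : X.Projective := by
  obtain ⟨i, q, r, s, hi, hq, hri, hqs, hirsq, hqi⟩ := h
  obtain ⟨s', hs', hqs'⟩ := h'' X X'' q (ContinuousLinearMap.id ℂ X''.carrier) hq ⟨s, hqs⟩
    ⟨fun a x => rfl, fun a x => rfl⟩
  have hinj : ∀ x y, i x = i y → x = y := fun x y h => by rw [← hri x, h, hri]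
  have hker : ∀ y, q y = 0 → i (r y) = y := fun y hy => by
    have := hirsq y
    rw [hy, map_zero, add_zero] at this
    exact this
  let r' : Op X X' := r.comp (ContinuousLinearMap.id ℂ X.carrier - s'.comp q)
  have hr'0 : ∀ x, r' x = r (x - s' (q x)) := fun x => rfl
  have hir' : ∀ x, i (r' x) = x - s' (q x) := by
    intro x
    rw [hr'0]
    apply hker
    rw [map_sub]
    have : q (s' (q x)) = q x := hqs' (q x)
    rw [this, sub_self]
  have hr' : IsHom r' := by
    constructor
    · intro a x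
      apply hinj
      rw [hir', hi.1, hir', hq.1, hs'.1, map_sub]
    · intro a x
      apply hinj
      rw [hir', hi.2, hir', hq.2, hs'.2, map_sub]
  intro Y Z σ φ hσ hσ' hφ
  obtain ⟨ψ1, h1, h1'⟩ := h' Y Z σ (φ.comp i) hσ hσ'
    ⟨fun a x => by
      show φ (i (X'.left a x)) = Z.left a (φ (i x))
      rw [hi.1, hφ.1], fun a x => by
      show φ (i (X'.right a x)) = Z.right a (φ (i x))
      rw [hi.2, hφ.2]⟩
  obtain ⟨ψ2, h2, h2'⟩ := h'' Y Z σ (φ.comp s') hσ hσ'
    ⟨fun a x => by
      show φ (s' (X''.left a x)) = Z.left a (φ (s' x))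
      rw [hs'.1, hφ.1], fun a x => by
      show φ (s' (X''.right a x)) = Z.right a (φ (s' x))
      rw [hs'.2, hφ.2]⟩
  refine ⟨ψ1.comp r' + ψ2.comp q, ⟨?_, ?_⟩, ?_⟩
  · intro a x
    show ψ1 (r' (X.left a x)) + ψ2 (q (X.left a x)) = Y.left a (ψ1 (r' x) + ψ2 (q x))
    rw [map_add, hr'.1, hq.1, h1.1, h2.1]
  · intro a x
    show ψ1 (r' (X.right a x)) + ψ2 (q (X.right a x)) = Y.right a (ψ1 (r' x) + ψ2 (q x))
    rw [map_add, hr'.2, hq.2, h1.2, h2.2]
  · intro x
    show σ (ψ1 (r' x) + ψ2 (q x)) = φ x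
    rw [map_add, h1', h2']
    show φ (i (r' x)) + φ (s' (q x)) = φ x
    rw [← map_add, hir', sub_add_cancel]

/-- the step -/
lemma horseshoe {X' X X'' P' P'' K' K'' : Bim A A} (h : SE X' X X'') (hP' : P'.Projective)
    (hP'' : P''.Projective) (h1 : SE K' P' X') (h2 : SE K'' P'' X'') :
    ∃ P K : Bim A A, P.Projective ∧ SE K P X ∧ SE K' K K'' := by
  obtain ⟨i, q, r, s, hi, hq, hri, hqs, hirsq, hqi⟩ := h
  obtain ⟨j1, π1, r1, s1, hj1, hπ1, hrj1, hπs1, hjr1, hπj1⟩ := h1
  obtain ⟨j2, π2, r2, s2, hj2, hπ2, hrj2, hπs2, hjr2, hπj2⟩ := h2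
  obtain ⟨τ, hτ, hqτ⟩ := hP'' X X'' q π2 hq ⟨s, hqs⟩ hπ2
  have hker : ∀ y, q y = 0 → i (r y) = y := fun y hy => by
    have := hirsq y
    rw [hy, map_zero, add_zero] at this
    exact this
  have hker1 : ∀ y, π1 y = 0 → j1 (r1 y) = y := fun y hy => by
    have := hjr1 y
    rw [hy, map_zero, add_zero] at this
    exact this
  have hker2 : ∀ y, π2 y = 0 → j2 (r2 y) = y := fun y hy => by
    have := hjr2 y
    rw [hy, map_zero, add_zero] at this
    exact this
  let P := prodBim P' P''
  let σ : Op P X := (i.comp π1).comp (fst ℂ P'.carrier P''.carrier) +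
    τ.comp (snd ℂ P'.carrier P''.carrier)
  have hσ0 : ∀ p : P'.carrier × P''.carrier, σ p = i (π1 p.1) + τ p.2 := fun p => rfl
  have hσ : IsHom σ := by
    constructor
    · intro a p
      show i (π1 (P'.left a p.1)) + τ (P''.left a p.2) = X.left a (i (π1 p.1) + τ p.2)
      rw [map_add, hπ1.1, hi.1, hτ.1]
    · intro a p
      show i (π1 (P'.right a p.1)) + τ (P''.right a p.2) = X.right a (i (π1 p.1) + τ p.2)
      rw [map_add, hπ1.2, hi.2, hτ.2]
  let S : Op X P := ((s1.comp r).comp (ContinuousLinearMap.id ℂ X.carrier -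
    (τ.comp s2).comp q)).prod (s2.comp q)
  have hS0 : ∀ x, S x = (s1 (r (x - τ (s2 (q x)))), s2 (q x)) := fun x => rfl
  have hS : ∀ x, σ (S x) = x := by
    intro x
    rw [hS0, hσ0]
    show i (π1 (s1 (r (x - τ (s2 (q x)))))) + τ (s2 (q x)) = x
    rw [hπs1, hker, sub_add_cancel]
    rw [map_sub, hqτ, hπs2, sub_self]
  refine ⟨P, ker σ hσ, prod_projective hP' hP'', se_ker σ hσ S hS, ?_⟩
  -- facts on the kernel
  have hk1 : ∀ p : P'.carrier × P''.carrier, σ p = 0 → π2 p.2 = 0 := by
    intro p hp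
    rw [hσ0] at hp
    have := congrArg q hp
    rw [map_add, map_zero, hqi, zero_add, hqτ] at this
    exact this
  have hk2 : ∀ p : P'.carrier × P''.carrier, σ p = 0 → π1 p.1 + r (τ p.2) = 0 := by
    intro p hp
    rw [hσ0] at hp
    have := congrArg r hp
    rw [map_add, map_zero, hri] at this
    exact this
  let V := kerVal σ hσ
  have hV : ∀ k : (ker σ hσ).carrier, σ (V k) = 0 := map_kerVal σ hσ
  have hinj2 : ∀ x y, j2 x = j2 y → x = y := fun x y h => by rw [← hrj2 x, h, hrj2]
  let iK : Op K' (ker σ hσ) := kerCod σ hσ ((inl ℂ P'.carrier P''.carrier).comp j1) (by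
    intro k
    show i (π1 (j1 k)) + τ 0 = 0
    rw [hπj1, map_zero, map_zero, add_zero])
  have hiK : ∀ k, V (iK k) = ((j1 k, 0) : P'.carrier × P''.carrier) := fun k => rfl
  let qK : Op (ker σ hσ) K'' := r2.comp ((snd ℂ P'.carrier P''.carrier).comp V)
  have hqK : ∀ k, qK k = r2 (V k : P'.carrier × P''.carrier).2 := fun k => rfl
  have hqK' : ∀ k, j2 (qK k) = (V k : P'.carrier × P''.carrier).2 := by
    intro k
    rw [hqK]
    exact hker2 _ (hk1 _ (hV k))
  let sK : Op K'' (ker σ hσ) := kerCod σ hσ ((-(((s1.comp r).comp τ).comp j2)).prod j2) (by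
    intro k
    show i (π1 (-s1 (r (τ (j2 k))))) + τ (j2 k) = 0
    rw [map_neg, hπs1, map_neg, hker, neg_add_cancel]
    rw [hqτ, hπj2])
  have hsK : ∀ k, V (sK k) = ((-s1 (r (τ (j2 k))), j2 k) : P'.carrier × P''.carrier) :=
    fun k => rfl
  let rK : Op (ker σ hσ) K' := (r1.comp (fst ℂ P'.carrier P''.carrier +
    ((s1.comp r).comp τ).comp (snd ℂ P'.carrier P''.carrier))).comp V
  have hrK : ∀ k, rK k = r1 ((V k : P'.carrier × P''.carrier).1 +
    s1 (r (τ (V k : P'.carrier × P''.carrier).2))) := fun k => rfl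
  refine ⟨iK, qK, rK, sK, ⟨?_, ?_⟩, ⟨?_, ?_⟩, ?_, ?_, ?_, ?_⟩
  · intro a k
    apply kerVal_inj σ hσ
    show ((j1 (K'.left a k), 0) : P'.carrier × P''.carrier) = (P'.left a (j1 k), P''.left a 0)
    rw [hj1.1, map_zero]
  · intro a k
    apply kerVal_inj σ hσ
    show ((j1 (K'.right a k), 0) : P'.carrier × P''.carrier) = (P'.right a (j1 k), P''.right a 0)
    rw [hj1.2, map_zero]
  · intro a k
    apply hinj2
    rw [hj2.1, hqK', hqK']
    rfl
  · intro a k
    apply hinj2
    rw [hj2.2, hqK', hqK']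
    rfl
  · intro k
    rw [hrK, hiK]
    show r1 (j1 k + s1 (r (τ 0))) = k
    rw [map_zero, map_zero, map_zero, add_zero, hrj1]
  · intro k
    rw [hqK, hsK]
    exact hrj2 k
  · intro k
    apply kerVal_inj σ hσ
    have hu : j1 (rK k) = (V k : P'.carrier × P''.carrier).1 +
        s1 (r (τ (V k : P'.carrier × P''.carrier).2)) := by
      rw [hrK]
      apply hker1
      rw [map_add, hπs1]
      exact hk2 _ (hV k)
    refine Prod.ext ?_ ?_
    · show j1 (rK k) + -s1 (r (τ (j2 (qK k)))) = (V k : P'.carrier × P''.carrier).1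
      rw [hu, hqK']
      abel
    · show 0 + j2 (qK k) = (V k : P'.carrier × P''.carrier).2
      rw [hqK', zero_add]
  · intro k
    rw [hqK, hiK]
    exact map_zero r2

theorem hs : S_HS := by
  intro A _ _ _ _ n
  induction n with
  | zero =>
    intro X' X X'' h h' h''
    exact projective_ext h h' h''
  | succ n ih =>
    rintro X' X X'' h ⟨P', K', hP', hK', h1⟩ ⟨P'', K'', hP'', hK'', h2⟩
    obtain ⟨P, K, hP, hSE, hK⟩ := horseshoe h hP' hP'' h1 h2
    exact ⟨P, K, hP, ih K' K K'' hK hK' hK'', hSE⟩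

theorem qt : S_QT := by
  rintro A _ _ _ _ n X' X X'' ⟨i, q, r, s, hi, hq, hri, hqs, hirsq, hqi⟩ hX' ⟨P, K, hP, hK,
    j, π, rP, sP, hj, hπ, hrj, hπs, hjr, hπj⟩
  have hinj : ∀ x y, i x = i y → x = y := fun x y h => by rw [← hri x, h, hri]
  have hker : ∀ y, q y = 0 → i (r y) = y := fun y hy => by
    have := hirsq y
    rw [hy, map_zero, add_zero] at this
    exact this
  let σ : Op P X'' := q.comp π
  have hσ : IsHom σ := by
    constructor
    · intro a p
      show q (π (P.left a p)) = X''.left a (q (π p))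
      rw [hπ.1, hq.1]
    · intro a p
      show q (π (P.right a p)) = X''.right a (q (π p))
      rw [hπ.2, hq.2]
  have hS : ∀ x, σ ((sP.comp s) x) = x := by
    intro x
    show q (π (sP (s x))) = x
    rw [hπs, hqs]
  refine ⟨P, ker σ hσ, hP, hs A n K (ker σ hσ) X' ?_ hK hX', se_ker σ hσ (sP.comp s) hS⟩
  let V := kerVal σ hσ
  have hV : ∀ k : (ker σ hσ).carrier, q (π (V k)) = 0 := map_kerVal σ hσ
  let iK : Op K (ker σ hσ) := kerCod σ hσ j (by
    intro k
    show q (π (j k)) = 0
    rw [hπj, map_zero])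
  let qK : Op (ker σ hσ) X' := (r.comp π).comp V
  have hqK : ∀ k, i (qK k) = π (V k) := fun k => hker _ (hV k)
  let sK : Op X' (ker σ hσ) := kerCod σ hσ (sP.comp i) (by
    intro x
    show q (π (sP (i x))) = 0
    rw [hπs, hqi])
  let rK : Op (ker σ hσ) K := rP.comp V
  refine ⟨iK, qK, rK, sK, ⟨?_, ?_⟩, ⟨?_, ?_⟩, ?_, ?_, ?_, ?_⟩
  · intro a k
    apply kerVal_inj σ hσ
    exact hj.1 a k
  · intro a k
    apply kerVal_inj σ hσ
    exact hj.2 a k
  · intro a k
    apply hinj
    rw [hi.1, hqK, hqK]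
    exact hπ.1 a (V k)
  · intro a k
    apply hinj
    rw [hi.2, hqK, hqK]
    exact hπ.2 a (V k)
  · intro k
    exact hrj k
  · intro x
    show r (π (sP (i x))) = x
    rw [hπs, hri]
  · intro k
    apply kerVal_inj σ hσ
    show j (rP (V k)) + sP (i (qK k)) = V k
    rw [hqK, hjr]
  · intro k
    show r (π (j k)) = 0
    rw [hπj, map_zero]

theorem mono : S_MONO := by
  intro A _ _ _ _ n
  induction n with
  | zero =>
    intro X hX
    refine ⟨X, zeroBim, hX, zeroBim_projective, 0, ContinuousLinearMap.id ℂ X.carrier, 0,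
      ContinuousLinearMap.id ℂ X.carrier, ⟨?_, ?_⟩, ⟨fun a x => rfl, fun a x => rfl⟩, ?_, ?_, ?_, ?_⟩
    · intro a x
      exact (X.left a).map_zero.symm
    · intro a x
      exact (X.right a).map_zero.symm
    · intro x
      rfl
    · intro x
      rfl
    · intro x
      exact zero_add (M := X.carrier) x
    · intro x
      rfl
  | succ n ih =>
    rintro X ⟨P, K, hP, hK, h⟩
    exact ⟨P, K, hP, ih K hK, h⟩

theorem res : S_RES := by
  intro A _ _ _ _ n
  induction n with
  | zero =>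
    intro X hX
    exact Projective.hasResolution hX
  | succ n ih =>
    rintro X ⟨P, K, hP, hK, j, π, rP, sP, hj, hπ, hrj, hπs, hjr, hπj⟩
    refine HasResolution.splice hP π j sP rP hπ hj hπs hrj hπj ?_ (ih K hK)
    intro p
    rw [add_comm]
    exact hjr p

end

end Pool.Agent.W305.DT
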